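import Pool.Agent.H66.XP.TG

/-!
# Exponential time in EQP: row CLS (a formula in which some of the variables are fixed)
-/

set_option autoImplicit false

namespace Pool.Agent.H92.XP

open Finset Pool.Agent.H6.NB Pool.Agent.H66.XP

/-- CLS: a formula in which some of the variables are fixed, as a formula in the other variables. -/
theorem pf_CLS : Pool.Agent.H66.XP.T_CLS := by
  intro V _ _ κ S d f hf
  induction d generalizing f with
  | zero =>
    rcases hf with ⟨b, hb⟩ | ⟨v, hv⟩
    · exact Or.inl ⟨b, fun z => hb _⟩
    · by_cases h : κ v = none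
      · refine Or.inr ⟨⟨v, h⟩, fun z => ?_⟩
        simp only [hv, dif_pos h]
      · refine Or.inl ⟨(κ v).getD false, fun z => ?_⟩
        simp only [hv, dif_neg h]
  | succ d ih =>
    obtain ⟨m, g, b, hm, hg, hf⟩ := hf
    exact ⟨m, fun i z => g i fun v => if h : κ v = none then z ⟨v, h⟩ else (κ v).getD false, b, hm,
      fun i => ih (g i) (hg i), fun z => hf _⟩

end Pool.Agent.H92.XP
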